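import Pool.Agent.Y808.DR.Stm
import Pool.Agent.H379R3.Reg

/-!
Project DR (helper808), job DR-TWO: retracts of regular local rings of dimension at most one.
-/

set_option autoImplicit false

universe u

namespace Pool.Agent.Y921.DR

open IsLocalRing Pool.Agent.Y808.DR

theorem core (R S : Type u) [CommRing R] [CommRing S] [IsDomain R] [IsLocalRing R]
    [IsNoetherianRing R] [hS : IsRegularLocalRing S] [Algebra R S] [Algebra.IsIntegral R S]
    (hinj : Function.Injective (algebraMap R S)) (hdim : ringKrullDim R ≤ 1)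
    (hret : ∀ (a b : R) (s : S), algebraMap R S a = algebraMap R S b * s → ∃ c : R, a = b * c) :
    IsRegularLocalRing R := by
  have hSd : IsDomain S := Pool.Agent.H379R3.isDomain S
  have hR1 : Ring.KrullDimLE 1 R := Ring.krullDimLE_iff.2 (by simpa using hdim)
  have hR2 := Ring.krullDimLE_one_iff_of_noZeroDivisors.1 hR1
  have hS1 : Ring.KrullDimLE 1 S := by
    rw [Ring.krullDimLE_one_iff_of_noZeroDivisors]
    intro Q hQ hQp
    obtain ⟨x, hx, hx0⟩ := Submodule.exists_mem_ne_zero_of_ne_bot hQ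
    have h1 : Q.comap (algebraMap R S) ≠ ⊥ :=
      Ideal.comap_ne_bot_of_integral_mem hx0 hx (Algebra.IsIntegral.isIntegral x)
    have h2 : (Q.comap (algebraMap R S)).IsMaximal := hR2 _ h1 inferInstance
    exact Ideal.isMaximal_of_isIntegral_of_isMaximal_comap Q h2
  have hS2 : ringKrullDim S ≤ 1 := by simpa using Ring.krullDimLE_iff.1 hS1
  have hS3 : Module.finrank (ResidueField S) (CotangentSpace S) ≤ 1 := by
    have h1 := (IsRegularLocalRing.iff_finrank_cotangentSpace (R := S)).1 hS
    rw [← h1] at hS2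
    exact_mod_cast hS2
  have hS4 : IsPrincipalIdealRing S :=
    ((tfae_of_isNoetherianRing_of_isLocalRing_of_isDomain (R := S)).out 5 0).1 hS3
  have hSic : IsIntegrallyClosed S := inferInstance
  have hRic : IsIntegrallyClosed R := by
    rw [isIntegrallyClosed_iff (FractionRing R)]
    intro x hx
    obtain ⟨a, b, hb, rfl⟩ := IsFractionRing.div_surjective (A := R) x
    let L := FractionRing S
    have hRL : Function.Injective (algebraMap R L) := by
      rw [IsScalarTower.algebraMap_eq R S L]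
      exact (IsFractionRing.injective S L).comp hinj
    let φ : FractionRing R →ₐ[R] L := IsFractionRing.liftAlgHom (g := Algebra.ofId R L) hRL
    have h1 : IsIntegral R (φ (algebraMap R (FractionRing R) a / algebraMap R (FractionRing R) b)) :=
      hx.map φ
    have h2 : IsIntegral S (φ (algebraMap R (FractionRing R) a / algebraMap R (FractionRing R) b)) :=
      h1.tower_top
    obtain ⟨s, hs⟩ := IsIntegrallyClosed.isIntegral_iff.1 h2
    have hb0 : b ≠ 0 := nonZeroDivisors.ne_zero hb
    have hbL : algebraMap R L b ≠ 0 := fun h => hb0 (hRL (by rw [h, map_zero]))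
    rw [map_div₀, φ.commutes, φ.commutes, eq_div_iff hbL] at hs
    have h3 : algebraMap R S a = algebraMap R S b * s := by
      apply IsFractionRing.injective S L
      rw [map_mul, ← IsScalarTower.algebraMap_apply, ← IsScalarTower.algebraMap_apply, ← hs,
        mul_comm]
    obtain ⟨c, hc⟩ := hret a b s h3
    refine ⟨c, ?_⟩
    have hbK : algebraMap R (FractionRing R) b ≠ 0 := fun h =>
      hb0 (IsFractionRing.injective R (FractionRing R) (by rw [h, map_zero]))
    rw [eq_div_iff hbK, hc, map_mul, mul_comm]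
  have h34 : IsIntegrallyClosed R ∧ ∀ P : Ideal R, P ≠ ⊥ → P.IsPrime → P = maximalIdeal R :=
    ⟨hRic, fun P hP hPp => eq_maximalIdeal (hR2 P hP hPp)⟩
  have hRpir : IsPrincipalIdealRing R :=
    ((tfae_of_isNoetherianRing_of_isLocalRing_of_isDomain (R := R)).out 3 0).1 h34
  infer_instance

theorem t_TWO : S_TWO.{u} := by
  intro A B _ _ _ _ _ _ p T _ hp hT1 hTp hreg hdim
  set P := (p.map (algebraMap A B)).radical with hP
  have hle : p ≤ P.comap (algebraMap A B) := fun a ha =>
    Ideal.le_radical (Ideal.mem_map_of_mem _ ha)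
  let j : A ⧸ p →+* B ⧸ P := Ideal.quotientMap P (algebraMap A B) hle
  let _ : Algebra (A ⧸ p) (B ⧸ P) := j.toAlgebra
  have hjmk : ∀ a : A, algebraMap (A ⧸ p) (B ⧸ P) (Ideal.Quotient.mk p a) =
      Ideal.Quotient.mk P (algebraMap A B a) := fun a => rfl
  have hTa : ∀ a : A, T (algebraMap A B a) = a * T 1 := by
    intro a
    rw [Algebra.algebraMap_eq_smul_one, map_smul, smul_eq_mul]
  have hinj : Function.Injective (algebraMap (A ⧸ p) (B ⧸ P)) := by
    rw [injective_iff_map_eq_zero]
    intro x hx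
    obtain ⟨a, rfl⟩ := Ideal.Quotient.mk_surjective x
    rw [hjmk, Ideal.Quotient.eq_zero_iff_mem] at hx
    have h1 := hTp _ hx
    rw [hTa] at h1
    rw [Ideal.Quotient.eq_zero_iff_mem]
    exact (hp.mem_or_mem h1).resolve_right fun h => hp.ne_top (Ideal.eq_top_of_isUnit_mem _ h hT1)
  have : Nontrivial (A ⧸ p) := Ideal.Quotient.nontrivial_iff.2 hp.ne_top
  have : IsLocalRing (A ⧸ p) := IsLocalRing.of_surjective' (Ideal.Quotient.mk p)
    Ideal.Quotient.mk_surjective
  have : Algebra.IsIntegral (A ⧸ p) (B ⧸ P) := by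
    constructor
    intro s
    obtain ⟨b, rfl⟩ := Ideal.Quotient.mk_surjective s
    obtain ⟨f, hf, hfb⟩ := Algebra.IsIntegral.isIntegral (R := A) b
    refine ⟨f.map (Ideal.Quotient.mk p), hf.map _, ?_⟩
    rw [Polynomial.eval₂_map]
    have h1 : (algebraMap (A ⧸ p) (B ⧸ P)).comp (Ideal.Quotient.mk p) =
        (Ideal.Quotient.mk P).comp (algebraMap A B) := by
      ext a
      exact hjmk a
    rw [h1, ← Polynomial.hom_eval₂, hfb, map_zero]
  refine core (A ⧸ p) (B ⧸ P) hinj hdim ?_
  intro x y s hxys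
  obtain ⟨a, rfl⟩ := Ideal.Quotient.mk_surjective x
  obtain ⟨b, rfl⟩ := Ideal.Quotient.mk_surjective y
  obtain ⟨b', rfl⟩ := Ideal.Quotient.mk_surjective s
  rw [hjmk, hjmk, ← map_mul, Ideal.Quotient.eq] at hxys
  have h1 := hTp _ hxys
  rw [map_sub, hTa, ← Algebra.smul_def, map_smul, smul_eq_mul] at h1
  obtain ⟨v, hv⟩ := hT1.exists_right_inv
  refine ⟨Ideal.Quotient.mk p (T b' * v), ?_⟩
  rw [← map_mul, Ideal.Quotient.eq]
  have h2 : a - b * (T b' * v) = (a * T 1 - b * T b') * v := by
    calc a - b * (T b' * v) = a * (T 1 * v) - b * (T b' * v) := by rw [hv, mul_one]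
      _ = (a * T 1 - b * T b') * v := by ring
  rw [h2]
  exact Ideal.mul_mem_right _ _ h1

end Pool.Agent.Y921.DR
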